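import Mathlib

set_option autoImplicit false

namespace Pool.Agent.Results.MP_b8a264_an.NotDense

open Matrix MeasureTheory ENNReal NNReal

variable {k d : ℕ} {e : Fin k → ℕ}

/-- The Brascamp-Lieb constant is finite. -/
def Feasible (B : ∀ i, Matrix (Fin (e i)) (Fin d) ℝ) (c : Fin k → ℝ) : Prop :=
  ∃ C : ℝ≥0, ∀ f : ∀ i, (Fin (e i) → ℝ) → ℝ≥0∞, (∀ i, Measurable (f i)) →
    ∫⁻ x, ∏ i, f i (B i *ᵥ x) ^ c i ≤ C * ∏ i, (∫⁻ y, f i y) ^ c i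

/-- The gaussian quotient. -/
noncomputable def gq (B : ∀ i, Matrix (Fin (e i)) (Fin d) ℝ) (c : Fin k → ℝ)
    (A : ∀ i, Matrix (Fin (e i)) (Fin (e i)) ℝ) : ℝ :=
  √((∏ i, (A i).det ^ c i) / (∑ i, c i • ((B i)ᵀ * A i * B i)).det)

/-- The gaussian quotient has a largest value on tuples of positive definite matrices. -/
def GaussExt (B : ∀ i, Matrix (Fin (e i)) (Fin d) ℝ) (c : Fin k → ℝ) : Prop :=
  ∃ A, (∀ i, (A i).PosDef) ∧ ∀ A', (∀ i, (A' i).PosDef) → gq B c A' ≤ gq B c A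

/-- The dimensions of the example. -/
def e0 : Fin 3 → ℕ
  | 0 => 2
  | 1 => 1
  | 2 => 1

/-- Triples. -/
def tri {α : ℕ → Type} (a : α 2) (b c : α 1) : ∀ i, α (e0 i)
  | 0 => a
  | 1 => b
  | 2 => c

theorem detid (B : Matrix (Fin 2) (Fin 3) ℝ) (u v : Matrix (Fin 1) (Fin 3) ℝ) (c1 c2 c3 : ℝ)
    (A : Matrix (Fin 2) (Fin 2) ℝ) (a b : Matrix (Fin 1) (Fin 1) ℝ) :
    (c1 • (Bᵀ * A * B) + c2 • (uᵀ * a * u) + c3 • (vᵀ * b * v)).det =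
      c1 ^ 2 * A.det * (c2 * a 0 0 * ((B 0 ⨯₃ B 1) ⬝ᵥ u 0) ^ 2 +
        c3 * b 0 0 * ((B 0 ⨯₃ B 1) ⬝ᵥ v 0) ^ 2) +
      c1 * c2 * c3 * a 0 0 * b 0 0 * ((B *ᵥ (u 0 ⨯₃ v 0)) ⬝ᵥ A *ᵥ (B *ᵥ (u 0 ⨯₃ v 0))) := by
  simp only [det_fin_three, det_fin_two, Matrix.add_apply, Matrix.smul_apply, Matrix.mul_apply,
    transpose_apply,
    Fin.sum_univ_two, Fin.sum_univ_one, Fin.sum_univ_three, smul_eq_mul, cross_apply, dotProduct,
    mulVec, cons_val_zero, cons_val_one, cons_val_two, head_cons, tail_cons, Nat.succ_eq_add_one,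
    Nat.reduceAdd]
  ring

theorem better (A : Matrix (Fin 2) (Fin 2) ℝ) (hA : A.PosDef) (w : Fin 2 → ℝ) (hw : w 1 ≠ 0) :
    ∃ A' : Matrix (Fin 2) (Fin 2) ℝ, A'.PosDef ∧ A'.det = A.det ∧
      w ⬝ᵥ A' *ᵥ w = (w ⬝ᵥ A *ᵥ w) / 4 := by
  set T : Matrix (Fin 2) (Fin 2) ℝ := !![2, -3 * w 0 / (2 * w 1); 0, 1 / 2] with hT
  have hd : T.det = 1 := by simp [hT, det_fin_two]
  refine ⟨Tᴴ * A * T, hA.conjTranspose_mul_mul_same
    (mulVec_injective_iff_isUnit.2 ((isUnit_iff_isUnit_det _).2 (by simp [hd]))), by simp [hd], ?_⟩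
  simp only [hT, dotProduct, mulVec, mul_apply, Fin.sum_univ_two, conjTranspose_apply, star_trivial,
    of_apply, cons_val', cons_val_zero, cons_val_one, cons_val_fin_one]
  field_simp
  ring

theorem feas : Feasible (tri (α := fun n => Matrix (Fin n) (Fin 3) ℝ) !![0, 1, 0; 0, 0, 1]
    !![1, 0, 0] !![1, 1, 0]) ![1, 1 / 2, 1 / 2] := by
  refine ⟨1, fun f hf => ?_⟩
  obtain ⟨f1, h1⟩ : ∃ f1 : (Fin 2 → ℝ) → ℝ≥0∞, f1 = f 0 := ⟨_, rfl⟩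
  obtain ⟨f2, h2⟩ : ∃ f2 : (Fin 1 → ℝ) → ℝ≥0∞, f2 = f 1 := ⟨_, rfl⟩
  obtain ⟨f3, h3⟩ : ∃ f3 : (Fin 1 → ℝ) → ℝ≥0∞, f3 = f 2 := ⟨_, rfl⟩
  have m1 : Measurable f1 := h1 ▸ hf 0
  have m2 : Measurable f2 := h2 ▸ hf 1
  have m3 : Measurable f3 := h3 ▸ hf 2
  have key : ∫⁻ x : Fin 3 → ℝ, f1 (fun j => x j.succ) * (f2 (fun _ => x 0) ^ (1 / 2 : ℝ) *
      f3 (fun _ => x 0 + x 1) ^ (1 / 2 : ℝ)) ≤
      (∫⁻ y, f1 y) * ((∫⁻ y, f2 y) ^ (1 / 2 : ℝ) * (∫⁻ y, f3 y) ^ (1 / 2 : ℝ)) := by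
    have hm : Measurable fun p : ℝ × (Fin 2 → ℝ) => f1 p.2 * (f2 (fun _ => p.1) ^ (1 / 2 : ℝ) *
        f3 (fun _ => p.1 + p.2 0) ^ (1 / 2 : ℝ)) := by fun_prop
    have hu : ∀ g : (Fin 1 → ℝ) → ℝ≥0∞, ∫⁻ z : ℝ, g (fun _ => z) = ∫⁻ y, g y := fun g =>
      (volume_preserving_funUnique (Fin 1) ℝ).symm.lintegral_comp_emb
        (MeasurableEquiv.measurableEmbedding _) g
    refine ((volume_preserving_piFinSuccAbove (fun _ : Fin 3 => ℝ) 0).lintegral_comp hm).le.trans ?_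
    rw [Measure.volume_eq_prod, lintegral_prod_symm _ hm.aemeasurable, ← lintegral_mul_const _ m1]
    refine lintegral_mono fun y => ?_
    simp only
    rw [lintegral_const_mul _ (by fun_prop), ← hu f2, ← hu f3,
      ← lintegral_add_right_eq_self (fun z : ℝ => f3 fun _ => z) (y 0)]
    exact mul_le_mul_right (lintegral_mul_norm_pow_le (by fun_prop) (by fun_prop) (by norm_num)
      (by norm_num) (by norm_num)) _
  simp only [Fin.prod_univ_three, ENNReal.coe_one, one_mul, mul_assoc, cons_val_zero, cons_val_one,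
    cons_val_two, head_cons, tail_cons, ENNReal.rpow_one, Nat.succ_eq_add_one, Nat.reduceAdd]
  subst h1 h2 h3
  refine le_trans (le_of_eq (lintegral_congr fun x => ?_)) key
  have e1 : (!![0, 1, 0; 0, 0, 1] : Matrix (Fin 2) (Fin 3) ℝ) *ᵥ x = fun j => x j.succ := by
    ext j; fin_cases j <;> simp [mulVec, dotProduct, Fin.sum_univ_three]
  have e2 : (!![1, 0, 0] : Matrix (Fin 1) (Fin 3) ℝ) *ᵥ x = fun _ => x 0 := by
    ext j; fin_cases j; simp [mulVec, dotProduct, Fin.sum_univ_three]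
  have e3 : (!![1, 1, 0] : Matrix (Fin 1) (Fin 3) ℝ) *ᵥ x = fun _ => x 0 + x 1 := by
    ext j; fin_cases j; simp [mulVec, dotProduct, Fin.sum_univ_three]
  rw [← e1, ← e2, ← e3]
  rfl

theorem notExt (B : ∀ i, Matrix (Fin (e0 i)) (Fin 3) ℝ) (c : Fin 3 → ℝ) (hc : ∀ i, 0 < c i)
    (B1 : Matrix (Fin 2) (Fin 3) ℝ) (u v : Matrix (Fin 1) (Fin 3) ℝ) (h1 : B 0 = B1) (h2 : B 1 = u)
    (h3 : B 2 = v) (hw : (B1 *ᵥ (u 0 ⨯₃ v 0)) 1 ≠ 0) : ¬ GaussExt B c := by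
  rintro ⟨A, hA, h⟩
  obtain ⟨A1, k1⟩ : ∃ A1 : Matrix (Fin 2) (Fin 2) ℝ, A1 = A 0 := ⟨_, rfl⟩
  obtain ⟨a, k2⟩ : ∃ a : Matrix (Fin 1) (Fin 1) ℝ, a = A 1 := ⟨_, rfl⟩
  obtain ⟨b, k3⟩ : ∃ b : Matrix (Fin 1) (Fin 1) ℝ, b = A 2 := ⟨_, rfl⟩
  have p1 : A1.PosDef := k1 ▸ hA 0
  have p2 : a.PosDef := k2 ▸ hA 1
  have p3 : b.PosDef := k3 ▸ hA 2
  obtain ⟨A', hA', hd, hq⟩ := better A1 p1 _ hw
  have g : ∀ M : Matrix (Fin 2) (Fin 2) ℝ,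
      gq B c (tri (α := fun n => Matrix (Fin n) (Fin n) ℝ) M a b) =
      √(M.det ^ c 0 * a.det ^ c 1 * b.det ^ c 2 /
        (c 0 • (B1ᵀ * M * B1) + c 1 • (uᵀ * a * u) + c 2 • (vᵀ * b * v)).det) := by
    intro M
    subst h1 h2 h3
    rw [gq, Fin.prod_univ_three, Fin.sum_univ_three]
    rfl
  have hAe : A = tri (α := fun n => Matrix (Fin n) (Fin n) ℝ) A1 a b := by
    subst k1 k2 k3
    funext i
    fin_cases i <;> rfl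
  have := h (tri (α := fun n => Matrix (Fin n) (Fin n) ℝ) A' a b) fun i => by
    fin_cases i
    exacts [hA', p2, p3]
  rw [hAe, g, g, detid, detid, hd, hq] at this
  have q1 := p1.det_pos
  have q2 := p2.det_pos
  have q3 := p3.det_pos
  have q4 : 0 < a 0 0 := by simpa using q2
  have q5 : 0 < b 0 0 := by simpa using q3
  have q6 := p1.dotProduct_mulVec_pos (x := B1 *ᵥ (u 0 ⨯₃ v 0)) fun h0 => hw (by simp [h0])
  rw [star_trivial] at q6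
  have c0 := hc 0
  have c1 := hc 1
  have c2 := hc 2
  refine absurd this (not_le.2 (Real.sqrt_lt_sqrt (by positivity) ?_))
  refine div_lt_div_of_pos_left (by positivity) (by positivity) ?_
  have : 0 < c 0 * c 1 * c 2 * a 0 0 * b 0 0 := by positivity
  nlinarith

theorem result : ∃ (k d : ℕ) (e : Fin k → ℕ) (B : ∀ i, Matrix (Fin (e i)) (Fin d) ℝ)
    (c : Fin k → ℝ), 1 ≤ k ∧ 1 ≤ d ∧ (∀ i, 1 ≤ e i) ∧ (∀ i, Function.Surjective (B i).mulVec) ∧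
    (∀ i, 0 < c i) ∧ Feasible B c ∧ ∃ ε > 0, ∀ (B' : ∀ i, Matrix (Fin (e i)) (Fin d) ℝ)
      (c' : Fin k → ℝ), (∀ i j l, |B i j l - B' i j l| < ε) → (∀ i, |c i - c' i| < ε) →
      ¬ GaussExt B' c' := by
  refine ⟨3, 3, e0, _, _, by norm_num, by norm_num, by decide, fun i => ?_, fun i => ?_, feas,
    1 / 10, by norm_num, fun B c hB hc => ?_⟩
  · fin_cases i
    · intro (y : Fin 2 → ℝ)
      refine ⟨![0, y 0, y 1], ?_⟩
      change (!![0, 1, 0; 0, 0, 1] : Matrix (Fin 2) (Fin 3) ℝ) *ᵥ _ = y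
      ext j; fin_cases j <;> simp [mulVec, dotProduct, Fin.sum_univ_three]
    · intro (y : Fin 1 → ℝ)
      refine ⟨![y 0, 0, 0], ?_⟩
      change (!![1, 0, 0] : Matrix (Fin 1) (Fin 3) ℝ) *ᵥ _ = y
      ext j; fin_cases j; simp [mulVec, dotProduct, Fin.sum_univ_three]
    · intro (y : Fin 1 → ℝ)
      refine ⟨![y 0, 0, 0], ?_⟩
      change (!![1, 1, 0] : Matrix (Fin 1) (Fin 3) ℝ) *ᵥ _ = y
      ext j; fin_cases j; simp [mulVec, dotProduct, Fin.sum_univ_three]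
  · fin_cases i <;> norm_num
  · obtain ⟨B1, h1⟩ : ∃ B1 : Matrix (Fin 2) (Fin 3) ℝ, B 0 = B1 := ⟨_, rfl⟩
    obtain ⟨u, h2⟩ : ∃ u : Matrix (Fin 1) (Fin 3) ℝ, B 1 = u := ⟨_, rfl⟩
    obtain ⟨v, h3⟩ : ∃ v : Matrix (Fin 1) (Fin 3) ℝ, B 2 = v := ⟨_, rfl⟩
    refine notExt B c (fun i => ?_) B1 u v h1 h2 h3 ?_
    · have := abs_lt.1 (hc i)
      fin_cases i <;> norm_num at this ⊢ <;> linarith
    have b0 : |0 - B1 1 0| < 1 / 10 := h1 ▸ hB 0 (1 : Fin 2) 0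
    have b1 : |0 - B1 1 1| < 1 / 10 := h1 ▸ hB 0 (1 : Fin 2) 1
    have b2 : |1 - B1 1 2| < 1 / 10 := h1 ▸ hB 0 (1 : Fin 2) 2
    have u0 : |1 - u 0 0| < 1 / 10 := h2 ▸ hB 1 (0 : Fin 1) 0
    have u1 : |0 - u 0 1| < 1 / 10 := h2 ▸ hB 1 (0 : Fin 1) 1
    have u2 : |0 - u 0 2| < 1 / 10 := h2 ▸ hB 1 (0 : Fin 1) 2
    have v0 : |1 - v 0 0| < 1 / 10 := h3 ▸ hB 2 (0 : Fin 1) 0
    have v1 : |1 - v 0 1| < 1 / 10 := h3 ▸ hB 2 (0 : Fin 1) 1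
    have v2 : |0 - v 0 2| < 1 / 10 := h3 ▸ hB 2 (0 : Fin 1) 2
    simp only [mulVec, dotProduct, Fin.sum_univ_three, cross_apply, cons_val_zero, cons_val_one,
      cons_val_two, head_cons, tail_cons, Nat.succ_eq_add_one, Nat.reduceAdd]
    rw [abs_lt] at b0 b1 b2 u0 u1 u2 v0 v1 v2
    have t0 : -1 < u 0 1 * v 0 2 - u 0 2 * v 0 1 ∧ u 0 1 * v 0 2 - u 0 2 * v 0 1 < 1 := by
      constructor <;> nlinarith
    have t1 : -1 < u 0 2 * v 0 0 - u 0 0 * v 0 2 ∧ u 0 2 * v 0 0 - u 0 0 * v 0 2 < 1 := by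
      constructor <;> nlinarith
    have t2 : 1 / 2 < u 0 0 * v 0 1 - u 0 1 * v 0 0 := by nlinarith
    apply ne_of_gt
    generalize u 0 1 * v 0 2 - u 0 2 * v 0 1 = r at *
    generalize u 0 2 * v 0 0 - u 0 0 * v 0 2 = s at *
    generalize u 0 0 * v 0 1 - u 0 1 * v 0 0 = t at *
    nlinarith

end Pool.Agent.Results.MP_b8a264_an.NotDense
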